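import Mathlib

/-!
# Cooperative colouring of chain-structured systems with two 2-edges

A pair of isomorphic chain-structured systems on six vertices, each with exactly two
2-edges and two 3-edges, without a cooperative colouring.
-/

namespace Pool.Agent.Results.MP_ace2a1_co.TwoEdges

open Finset

section Defs

variable {V : Type} [Fintype V] [DecidableEq V]

/-- A hypergraph on `V` is given by its finite set of hyperedges.  It is chain-structured
if there is a cyclic ordering `v` of `V` such that every hyperedge is a run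
`{v i, v (i+1), ..., v (i+l-1)}` of `l ≥ 1` cyclically consecutive vertices. -/
def ChainStructured (E : Finset (Finset V)) : Prop :=
  ∃ v : ZMod (Fintype.card V) ≃ V, ∀ e ∈ E, ∃ (i : ZMod (Fintype.card V)) (l : ℕ),
    1 ≤ l ∧ l ≤ Fintype.card V ∧
      e = (range l).image fun j : ℕ => v (i + (j : ZMod (Fintype.card V)))

/-- isomorphism of hypergraphs -/
def Isomorphic (E₁ E₂ : Finset (Finset V)) : Prop :=
  ∃ σ : V ≃ V, ∀ e : Finset V, e ∈ E₁ ↔ e.image σ ∈ E₂

/-- exactly two 2-edges, every other hyperedge has at least three vertices -/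
def TwoTwoEdges (E : Finset (Finset V)) : Prop :=
  (E.filter fun e => e.card = 2).card = 2 ∧ ∀ e ∈ E, e.card = 2 ∨ 3 ≤ e.card

/-- a cooperative colouring: `I₁ ∪ I₂ = V` with `I₁` independent in the first and `I₂`
independent in the second hypergraph -/
def HasCooperativeColouring (E₁ E₂ : Finset (Finset V)) : Prop :=
  ∃ I₁ I₂ : Finset V, (∀ e ∈ E₁, ¬ e ⊆ I₁) ∧ (∀ e ∈ E₂, ¬ e ⊆ I₂) ∧ I₁ ∪ I₂ = univ

end Defs

/-- the first system, for the cyclic order `0,1,2,3,4,5` -/
def E1 : Finset (Finset (Fin 6)) := {{0, 1}, {3, 4}, {1, 2, 3}, {4, 5, 0}}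

/-- the second system, for the cyclic order `0,2,4,1,5,3` -/
def E2 : Finset (Finset (Fin 6)) := {{4, 1}, {3, 0}, {1, 5, 3}, {0, 2, 4}}

/-- the second cyclic order -/
def f2 : ZMod 6 → Fin 6 := ![0, 2, 4, 1, 5, 3]

/-- its inverse -/
def g2 : Fin 6 → ZMod 6 := ![0, 3, 1, 5, 2, 4]

/-- the first cyclic order -/
def f1 : ZMod 6 → Fin 6 := ![0, 1, 2, 3, 4, 5]

/-- its inverse -/
def g1 : Fin 6 → ZMod 6 := ![0, 1, 2, 3, 4, 5]

/-- the first cyclic order as a bijection -/
def v1 : ZMod 6 ≃ Fin 6 :=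
  ⟨f1, g1, fun x => by revert x; decide, fun x => by revert x; decide⟩

lemma chain1 : ChainStructured E1 := by
  refine ⟨v1, ?_⟩
  have key : ∀ e ∈ E1, ∃ i : ZMod 6, ∃ l ∈ range 7, 1 ≤ l ∧ l ≤ 6 ∧
      e = (range l).image fun j : ℕ => f1 (i + (j : ZMod 6)) := by
    decide
  intro e he
  obtain ⟨i, l, -, h⟩ := key e he
  exact ⟨i, l, h⟩

/-- the second cyclic order as a bijection -/
def v2 : ZMod 6 ≃ Fin 6 :=
  ⟨f2, g2, fun x => by revert x; decide, fun x => by revert x; decide⟩

lemma chain2 : ChainStructured E2 := by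
  refine ⟨v2, ?_⟩
  have key : ∀ e ∈ E2, ∃ i : ZMod 6, ∃ l ∈ range 7, 1 ≤ l ∧ l ≤ 6 ∧
      e = (range l).image fun j : ℕ => f2 (i + (j : ZMod 6)) := by
    decide
  intro e he
  obtain ⟨i, l, -, h⟩ := key e he
  exact ⟨i, l, h⟩

/-- an isomorphism from the first to the second system -/
def s : Fin 6 → Fin 6 := ![4, 1, 5, 3, 0, 2]

/-- its inverse -/
def t : Fin 6 → Fin 6 := ![4, 1, 5, 3, 0, 2]

set_option maxRecDepth 100000 in
lemma iso : Isomorphic E1 E2 := by
  refine ⟨⟨s, t, fun x => by revert x; decide, fun x => by revert x; decide⟩, ?_⟩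
  show ∀ e : Finset (Fin 6), e ∈ E1 ↔ e.image s ∈ E2
  decide

set_option maxRecDepth 100000 in
lemma no_coop : ¬ HasCooperativeColouring E1 E2 := by
  rintro ⟨I, J, h1, h2, h3⟩
  have key : ∀ A : Finset (Fin 6), (∀ e ∈ E1, ¬ e ⊆ A) → ∃ e ∈ E2, e ⊆ univ \ A := by
    decide
  obtain ⟨e, he, he'⟩ := key I h1
  refine h2 e he (he'.trans ?_)
  intro x hx
  have hx' : x ∉ I := (mem_sdiff.1 hx).2
  have : x ∈ I ∪ J := by
    rw [h3]
    exact mem_univ x
  exact (mem_union.1 this).resolve_left hx'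

/-- Two isomorphic chain-structured systems, each with exactly two 2-edges and all other
hyperedges of size at least 3, need not admit a cooperative colouring. -/
theorem result :
    (ChainStructured E1 ∧ ChainStructured E2 ∧ Isomorphic E1 E2 ∧ TwoTwoEdges E1 ∧
      TwoTwoEdges E2 ∧ ¬ HasCooperativeColouring E1 E2) ∧
    ¬ ∀ (V : Type) [Fintype V] [DecidableEq V] (E₁ E₂ : Finset (Finset V)),
      ChainStructured E₁ → ChainStructured E₂ → Isomorphic E₁ E₂ →
      TwoTwoEdges E₁ → TwoTwoEdges E₂ → HasCooperativeColouring E₁ E₂ := by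
  have h1 : TwoTwoEdges E1 := ⟨by decide, by decide⟩
  have h2 : TwoTwoEdges E2 := ⟨by decide, by decide⟩
  exact ⟨⟨chain1, chain2, iso, h1, h2, no_coop⟩,
    fun h => no_coop (h (Fin 6) E1 E2 chain1 chain2 iso h1 h2)⟩

end Pool.Agent.Results.MP_ace2a1_co.TwoEdges
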